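import Pool.Agent.Helper50.VD.St

open MeasureTheory Set Filter Topology
open scoped ENNReal

noncomputable section

namespace VD.M_T2

/-- value condition of a lattice point with respect to all edges -/
def Ins (K : ℕ) (Q : ℕ × ℕ) : Prop := ∀ e ∈ Es, e.1 * Q.1 + e.2.1 * Q.2 ≤ K * e.2.2

/-- consecutive points of the refined polygon -/
structure Good (K : ℕ) (Q Q' : ℕ × ℕ) : Prop where
  i1 : Ins K Q
  i2 : Ins K Q'
  edge : ∃ e ∈ Es, e.1 * Q.1 + e.2.1 * Q.2 = K * e.2.2 ∧ e.1 * Q'.1 + e.2.1 * Q'.2 = K * e.2.2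
  p1 : 0 < Q.2
  p2 : 0 < Q'.1
  cr : Q.1 * Q'.2 < Q'.1 * Q.2

theorem ins_smul {V W : ℕ × ℕ} (hV : Ins 1 V) (hW : Ins 1 W) (j k : ℕ) :
    Ins (j + k) (j * V.1 + k * W.1, j * V.2 + k * W.2) := by
  intro e he
  have h1 := hV e he
  have h2 := hW e he
  simp only
  nlinarith [Nat.mul_le_mul_left j h1, Nat.mul_le_mul_left k h2]

theorem good_sub {V W : ℕ × ℕ} (h : Good 1 V W) {K k : ℕ} (hk : k + 1 ≤ K) :
    Good K ((k + 1) * V.1 + (K - (k + 1)) * W.1, (k + 1) * V.2 + (K - (k + 1)) * W.2)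
      (k * V.1 + (K - k) * W.1, k * V.2 + (K - k) * W.2) := by
  obtain ⟨m, rfl⟩ := Nat.exists_eq_add_of_le hk
  have e1 : k + 1 + m - (k + 1) = m := by omega
  have e2 : k + 1 + m - k = m + 1 := by omega
  rw [e1, e2]
  refine ⟨ins_smul h.i1 h.i2 (k + 1) m, ?_, ?_, ?_, ?_, ?_⟩
  · have := ins_smul h.i1 h.i2 k (m + 1)
    rwa [show k + (m + 1) = k + 1 + m by ring] at this
  · obtain ⟨e, he, h1, h2⟩ := h.edge
    refine ⟨e, he, ?_, ?_⟩
    · simp only
      calc e.1 * ((k + 1) * V.1 + m * W.1) + e.2.1 * ((k + 1) * V.2 + m * W.2)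
          = (k + 1) * (e.1 * V.1 + e.2.1 * V.2) + m * (e.1 * W.1 + e.2.1 * W.2) := by ring
        _ = (k + 1 + m) * e.2.2 := by rw [h1, h2]; ring
    · simp only
      calc e.1 * (k * V.1 + (m + 1) * W.1) + e.2.1 * (k * V.2 + (m + 1) * W.2)
          = k * (e.1 * V.1 + e.2.1 * V.2) + (m + 1) * (e.1 * W.1 + e.2.1 * W.2) := by ring
        _ = (k + 1 + m) * e.2.2 := by rw [h1, h2]; ring
  · have := h.p1
    simp only
    positivity
  · have := h.p2
    simp only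
    positivity
  · have := h.cr
    simp only
    zify at this ⊢
    have hk0 : (0 : ℤ) ≤ k := Int.natCast_nonneg k
    have hm0 : (0 : ℤ) ≤ m := Int.natCast_nonneg m
    have : ((k : ℤ) * V.1 + (m + 1) * W.1) * ((k + 1) * V.2 + m * W.2) -
        ((k + 1) * V.1 + m * W.1) * (k * V.2 + (m + 1) * W.2) =
        (k + 1 + m) * (W.1 * V.2 - V.1 * W.2) := by ring
    nlinarith

theorem chain_sub {V W : ℕ × ℕ} (h : Good 1 V W) {K : ℕ} {M : List (ℕ × ℕ)}
    (hM : M.IsChain (Good K)) (hh : M.head? = some (K * W.1, K * W.2)) (k : ℕ) :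
    k ≤ K → (subd K V.1 V.2 W.1 W.2 k ++ M).IsChain (Good K) ∧
      (subd K V.1 V.2 W.1 W.2 k ++ M).head? =
        some (k * V.1 + (K - k) * W.1, k * V.2 + (K - k) * W.2) := by
  induction k with
  | zero =>
    intro _
    have : subd K V.1 V.2 W.1 W.2 0 = [] := rfl
    rw [this, List.nil_append]
    refine ⟨hM, ?_⟩
    rw [hh]; simp
  | succ k ih =>
    intro hk
    obtain ⟨ih1, ih2⟩ := ih (by omega)
    have e : subd K V.1 V.2 W.1 W.2 (k + 1) =
      ((k + 1) * V.1 + (K - (k + 1)) * W.1, (k + 1) * V.2 + (K - (k + 1)) * W.2) ::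
        subd K V.1 V.2 W.1 W.2 k := rfl
    rw [e, List.cons_append]
    refine ⟨?_, by simp⟩
    cases hL : subd K V.1 V.2 W.1 W.2 k ++ M with
    | nil => exact List.IsChain.singleton _
    | cons A L =>
      rw [hL] at ih1 ih2
      simp only [List.head?_cons, Option.some.injEq] at ih2
      rw [List.isChain_cons_cons]
      refine ⟨?_, ih1⟩
      rw [ih2]
      exact good_sub h hk

theorem chain_refine {K : ℕ} (L : List (ℕ × ℕ)) :
    ∀ V : ℕ × ℕ, (V :: L).IsChain (Good 1) → (refine K (V :: L)).IsChain (Good K) ∧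
      (refine K (V :: L)).head? = some (K * V.1, K * V.2) := by
  induction L with
  | nil =>
    intro V _
    have : refine K [V] = [(K * V.1, K * V.2)] := rfl
    rw [this]
    exact ⟨List.IsChain.singleton _, by simp⟩
  | cons W L ih =>
    intro V h
    rw [List.isChain_cons_cons] at h
    obtain ⟨ih1, ih2⟩ := ih W h.2
    have e : refine K (V :: W :: L) = subd K V.1 V.2 W.1 W.2 K ++ refine K (W :: L) := rfl
    rw [e]
    have := chain_sub h.1 ih1 ih2 K le_rfl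
    simpa using this

instance (K : ℕ) (Q : ℕ × ℕ) : Decidable (Ins K Q) := by unfold Ins; infer_instance

theorem good_iff (K : ℕ) (Q Q' : ℕ × ℕ) : Good K Q Q' ↔
    Ins K Q ∧ Ins K Q' ∧
    (∃ e ∈ Es, e.1 * Q.1 + e.2.1 * Q.2 = K * e.2.2 ∧ e.1 * Q'.1 + e.2.1 * Q'.2 = K * e.2.2) ∧
    0 < Q.2 ∧ 0 < Q'.1 ∧ Q.1 * Q'.2 < Q'.1 * Q.2 :=
  ⟨fun h => ⟨h.i1, h.i2, h.edge, h.p1, h.p2, h.cr⟩, fun h => ⟨h.1, h.2.1, h.2.2.1, h.2.2.2.1,
    h.2.2.2.2.1, h.2.2.2.2.2⟩⟩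

instance (K : ℕ) (Q Q' : ℕ × ℕ) : Decidable (Good K Q Q') :=
  decidable_of_iff' _ (good_iff K Q Q')

theorem chain_Vs : Vs.IsChain (Good 1) := by decide +kernel

/-! ### the gauge -/

theorem gE_le {l : List (ℕ × ℕ × ℕ)} {z : ℝ × ℝ} {r : ℝ} (hr : 0 ≤ r)
    (h : ∀ e ∈ l, ((e.1 : ℝ) * |z.1| + e.2.1 * z.2) / e.2.2 ≤ r) : gE z l ≤ r := by
  induction l with
  | nil => simpa [gE] using hr
  | cons e l ih =>
    obtain ⟨dh, dx, c⟩ := e
    simp only [gE]
    apply max_le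
    · exact h (dh, dx, c) List.mem_cons_self
    · exact ih fun e he => h e (List.mem_cons_of_mem _ he)

theorem le_gE {l : List (ℕ × ℕ × ℕ)} {z : ℝ × ℝ} {e : ℕ × ℕ × ℕ} (he : e ∈ l) :
    ((e.1 : ℝ) * |z.1| + e.2.1 * z.2) / e.2.2 ≤ gE z l := by
  induction l with
  | nil => simp at he
  | cons e' l ih =>
    obtain ⟨dh, dx, c⟩ := e'
    simp only [gE]
    rcases List.mem_cons.mp he with h | h
    · rw [h]; exact le_max_left _ _
    · exact (ih h).trans (le_max_right _ _)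

theorem Es_pos : ∀ e ∈ Es, 0 < e.2.2 := by decide +kernel

/-- scaled point -/
def sc (K : ℕ) (Q : ℕ × ℕ) : ℝ × ℝ := ((Q.1 : ℝ) / K, (Q.2 : ℝ) / K)

theorem sec_facts {K : ℕ} (hK : 1 ≤ K) {Q Q' : ℕ × ℕ} (h : Good K Q Q') {a b : ℝ} {y : ℝ × ℝ}
    (hy : y ∈ sec (sc K Q) (sc K Q') a b) :
    0 < y.1 ∧ 0 < y.2 ∧ a < g y ∧ g y < b ∧ 0 < (Q'.1 : ℝ) * y.2 - Q'.2 * y.1 ∧
      (Q.1 : ℝ) * y.2 - Q.2 * y.1 < 0 := by
  obtain ⟨s, t, hs, ht, ha, hb, h1, h2⟩ := hy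
  have hK0 : (0 : ℝ) < K := by exact_mod_cast hK
  simp only [sc] at h1 h2
  have q1 : (0 : ℝ) ≤ Q.1 := Nat.cast_nonneg _
  have q2 : (0 : ℝ) < Q.2 := by exact_mod_cast h.p1
  have q1' : (0 : ℝ) < Q'.1 := by exact_mod_cast h.p2
  have q2' : (0 : ℝ) ≤ Q'.2 := Nat.cast_nonneg _
  have cr : (Q.1 : ℝ) * Q'.2 < Q'.1 * Q.2 := by exact_mod_cast h.cr
  have y1 : 0 < y.1 := by rw [h1]; positivity
  have y2 : 0 < y.2 := by rw [h2]; positivity
  have e1 : y.1 = (s * Q.1 + t * Q'.1) / K := by rw [h1]; ring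
  have e2 : y.2 = (s * Q.2 + t * Q'.2) / K := by rw [h2]; ring
  have gy : g y = s + t := by
    apply le_antisymm
    · apply gE_le (by linarith)
      intro e he
      have c0 : (0 : ℝ) < e.2.2 := by exact_mod_cast Es_pos e he
      have i1 : (e.1 : ℝ) * Q.1 + e.2.1 * Q.2 ≤ K * e.2.2 := by exact_mod_cast h.i1 e he
      have i2 : (e.1 : ℝ) * Q'.1 + e.2.1 * Q'.2 ≤ K * e.2.2 := by exact_mod_cast h.i2 e he
      rw [div_le_iff₀ c0, abs_of_pos y1, e1, e2]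
      have : (e.1 : ℝ) * ((s * Q.1 + t * Q'.1) / K) + e.2.1 * ((s * Q.2 + t * Q'.2) / K) =
        (s * (e.1 * Q.1 + e.2.1 * Q.2) + t * (e.1 * Q'.1 + e.2.1 * Q'.2)) / K := by ring
      rw [this, div_le_iff₀ hK0]
      nlinarith
    · obtain ⟨e, he, i1, i2⟩ := h.edge
      have c0 : (0 : ℝ) < e.2.2 := by exact_mod_cast Es_pos e he
      have i1' : (e.1 : ℝ) * Q.1 + e.2.1 * Q.2 = K * e.2.2 := by exact_mod_cast i1
      have i2' : (e.1 : ℝ) * Q'.1 + e.2.1 * Q'.2 = K * e.2.2 := by exact_mod_cast i2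
      refine le_trans (le_of_eq ?_) (le_gE he)
      rw [eq_div_iff c0.ne', abs_of_pos y1, e1, e2]
      have : (e.1 : ℝ) * ((s * Q.1 + t * Q'.1) / K) + e.2.1 * ((s * Q.2 + t * Q'.2) / K) =
        (s * (e.1 * Q.1 + e.2.1 * Q.2) + t * (e.1 * Q'.1 + e.2.1 * Q'.2)) / K := by ring
      rw [this, eq_div_iff hK0.ne', i1', i2']
      ring
  refine ⟨y1, y2, by linarith, by linarith, ?_, ?_⟩
  · have : (Q'.1 : ℝ) * y.2 - Q'.2 * y.1 = s * (Q'.1 * Q.2 - Q.1 * Q'.2) / K := by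
      rw [e1, e2]; ring
    rw [this]
    have : (0 : ℝ) < Q'.1 * Q.2 - Q.1 * Q'.2 := by linarith
    positivity
  · have : (Q.1 : ℝ) * y.2 - Q.2 * y.1 = -(t * (Q'.1 * Q.2 - Q.1 * Q'.2) / K) := by
      rw [e1, e2]; ring
    rw [this]
    have : (0 : ℝ) < Q'.1 * Q.2 - Q.1 * Q'.2 := by linarith
    have : 0 < t * (Q'.1 * Q.2 - Q.1 * Q'.2) / K := by positivity
    linarith

/-- the part below the ray through `Q` -/
def Low (Q : ℕ × ℕ) : Set (ℝ × ℝ) := {y | (Q.1 : ℝ) * y.2 - Q.2 * y.1 ≤ 0}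

theorem meas_Low (Q : ℕ × ℕ) : MeasurableSet (Low Q) :=
  measurableSet_le (by fun_prop) measurable_const

theorem main (hT1 : StT1) {K : ℕ} (hK : 1 ≤ K) {a b : ℝ} (ha : 0 < a) (hab : a < b)
    {f : ℝ × ℝ → ℝ} (hf : ∀ y : ℝ × ℝ, 0 < y.1 → 0 < y.2 → 0 ≤ f y)
    {c : ℕ × ℕ → ℕ × ℕ → ℝ}
    {S : Set (ℝ × ℝ)} (hS : MeasurableSet S) (hS' : S = (PB b \ PB a) ∩ {y | 0 < y.1})
    (hint : IntegrableOn (fun y : ℝ × ℝ => y.2 * f y) S) (L : List (ℕ × ℕ)) :
    ∀ Q : ℕ × ℕ, (Q :: L).IsChain (Good K) →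
      (∀ A B : ℕ × ℕ, (A, B) ∈ (Q :: L).zip L → ∀ᵐ y : ℝ × ℝ, y ∈ sec (sc K A) (sc K B) a b →
        c A B ≤ f y) →
      (b ^ 3 - a ^ 3) / (6 * (K : ℝ) ^ 3) * pairSum c (Q :: L) ≤ ∫ y in S ∩ Low Q, y.2 * f y := by
  have hSpos : ∀ y ∈ S, 0 < y.1 ∧ 0 < y.2 := by
    intro y hy
    rw [hS'] at hy
    exact ⟨hy.2, hy.1.1.1⟩
  have hnn : ∀ T : Set (ℝ × ℝ), MeasurableSet T → 0 ≤ ∫ y in S ∩ T, y.2 * f y := by
    intro T hT
    apply setIntegral_nonneg (hS.inter hT)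
    intro y hy
    obtain ⟨h1, h2⟩ := hSpos y hy.1
    exact mul_nonneg h2.le (hf y h1 h2)
  have hK0 : (0 : ℝ) < K := by exact_mod_cast hK
  induction L with
  | nil =>
    intro Q _ _
    have : pairSum c [Q] = 0 := by simp [pairSum]
    rw [this, mul_zero]
    exact hnn _ (meas_Low Q)
  | cons Q' L ih =>
    intro Q hch hc
    rw [List.isChain_cons_cons] at hch
    obtain ⟨hg, hch'⟩ := hch
    have ih' := ih Q' hch' (fun A B hAB => hc A B (by
      rw [List.zip_cons_cons]; exact List.mem_cons_of_mem _ hAB))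
    have hcQ := hc Q Q' (by rw [List.zip_cons_cons]; exact List.mem_cons_self)
    have q1 : (0 : ℝ) ≤ Q.1 := Nat.cast_nonneg _
    have q2 : (0 : ℝ) < Q.2 := by exact_mod_cast hg.p1
    have q1' : (0 : ℝ) < Q'.1 := by exact_mod_cast hg.p2
    have q2' : (0 : ℝ) ≤ Q'.2 := Nat.cast_nonneg _
    have cr : (Q.1 : ℝ) * Q'.2 < Q'.1 * Q.2 := by exact_mod_cast hg.cr
    obtain ⟨tm, ti, te⟩ := hT1 (sc K Q) (sc K Q') a b (by simp only [sc]; positivity)
      (by simp only [sc]; positivity) (by simp only [sc]; positivity)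
      (by simp only [sc]; positivity) (by
        simp only [sc]
        have : (Q'.1 : ℝ) / K * (Q.2 / K) - Q.1 / K * (Q'.2 / K) =
          (Q'.1 * Q.2 - Q.1 * Q'.2) / (K * K) := by field_simp
        rw [this]
        have : (0 : ℝ) < Q'.1 * Q.2 - Q.1 * Q'.2 := by linarith
        positivity) ha.le hab
    -- the sector is inside
    have hsub : sec (sc K Q) (sc K Q') a b ⊆ S ∩ Low Q := by
      intro y hy
      obtain ⟨y1, y2, g1, g2, -, h2⟩ := sec_facts hK hg hy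
      refine ⟨?_, h2.le⟩
      rw [hS']
      refine ⟨⟨⟨y2, g2⟩, ?_⟩, y1⟩
      intro hya
      exact absurd hya.2 (not_lt.mpr g1.le)
    have hsub2 : S ∩ Low Q' ⊆ S ∩ Low Q := by
      intro y hy
      refine ⟨hy.1, ?_⟩
      obtain ⟨y1, y2⟩ := hSpos y hy.1
      have h3 : (Q'.1 : ℝ) * y.2 - Q'.2 * y.1 ≤ 0 := hy.2
      show (Q.1 : ℝ) * y.2 - Q.2 * y.1 ≤ 0
      have h4 : (Q'.1 : ℝ) * (Q.1 * y.2 - Q.2 * y.1) ≤ 0 := by
        have e : (Q'.1 : ℝ) * (Q.1 * y.2 - Q.2 * y.1) =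
          Q.1 * (Q'.1 * y.2 - Q'.2 * y.1) - (Q'.1 * Q.2 - Q.1 * Q'.2) * y.1 := by ring
        rw [e]
        have := mul_nonneg q1 (neg_nonneg.mpr h3)
        have := mul_pos (sub_pos.mpr cr) y1
        linarith
      by_contra hcon
      have := mul_pos q1' (not_le.mp hcon)
      linarith
    have hdisj : Disjoint (sec (sc K Q) (sc K Q') a b) (S ∩ Low Q') := by
      rw [Set.disjoint_left]
      intro y hy hy2
      obtain ⟨-, -, -, -, h1, -⟩ := sec_facts hK hg hy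
      have : (Q'.1 : ℝ) * y.2 - Q'.2 * y.1 ≤ 0 := hy2.2
      linarith
    have hintQ : IntegrableOn (fun y : ℝ × ℝ => y.2 * f y) (S ∩ Low Q) :=
      hint.mono_set inter_subset_left
    have h1 : (∫ y in sec (sc K Q) (sc K Q') a b, y.2 * f y) + ∫ y in S ∩ Low Q', y.2 * f y ≤
        ∫ y in S ∩ Low Q, y.2 * f y := by
      rw [← setIntegral_union hdisj (hS.inter (meas_Low Q')) (hintQ.mono_set hsub)
        (hintQ.mono_set hsub2)]
      apply setIntegral_mono_set hintQ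
      · filter_upwards [ae_restrict_mem (hS.inter (meas_Low Q))] with y hy
        obtain ⟨h1, h2⟩ := hSpos y hy.1
        exact mul_nonneg h2.le (hf y h1 h2)
      · exact LE.le.eventuallyLE (union_subset hsub hsub2)
    have h2 : c Q Q' * ∫ y in sec (sc K Q) (sc K Q') a b, y.2 ≤
        ∫ y in sec (sc K Q) (sc K Q') a b, y.2 * f y := by
      rw [← integral_const_mul]
      apply integral_mono_ae
      · exact ti.const_mul _
      · exact hintQ.mono_set hsub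
      · filter_upwards [ae_restrict_mem tm, ae_restrict_of_ae hcQ] with y hy hy2
        have h3 := hy2 hy
        obtain ⟨-, y2, -⟩ := sec_facts hK hg hy
        show c Q Q' * y.2 ≤ y.2 * f y
        nlinarith
    rw [te] at h2
    have h3 : pairSum c (Q :: Q' :: L) =
      c Q Q' * ((Q'.1 : ℝ) * Q.2 - Q.1 * Q'.2) * ((Q.2 : ℝ) + Q'.2) + pairSum c (Q' :: L) := by
      simp [pairSum]
    rw [h3]
    have h4 : c Q Q' * ((b ^ 3 - a ^ 3) * ((sc K Q').1 * (sc K Q).2 - (sc K Q).1 * (sc K Q').2) *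
        ((sc K Q).2 + (sc K Q').2) / 6) = (b ^ 3 - a ^ 3) / (6 * (K : ℝ) ^ 3) *
        (c Q Q' * ((Q'.1 : ℝ) * Q.2 - Q.1 * Q'.2) * ((Q.2 : ℝ) + Q'.2)) := by
      simp only [sc]
      field_simp
    rw [h4] at h2
    rw [mul_add]
    linarith

end VD.M_T2

namespace VD

/-- sector sums: disjoint sectors of the refined polygon, list induction -/
theorem mT2 (hP0 : StP0) (hT1 : StT1) : StT2 := by
  intro K c f a b hK ha hab hb hf hint hc
  obtain ⟨-, -, -, -, -, -, hPB⟩ := hP0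
  have hS : MeasurableSet ((PB b \ PB a) ∩ {y : ℝ × ℝ | 0 < y.1}) :=
    (((hPB b (by linarith)).1.meas.diff (hPB a ha).1.meas)).inter
      (measurableSet_lt measurable_const measurable_fst)
  obtain ⟨h1, -⟩ := M_T2.chain_refine (K := K) Vs.tail (0, 3887) M_T2.chain_Vs
  have e : ((0, 3887) :: Vs.tail : List (ℕ × ℕ)) = Vs := rfl
  rw [e] at h1
  cases hL : refine K Vs with
  | nil =>
    have : pairSum c [] = 0 := by simp [pairSum]
    rw [this, mul_zero]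
    apply setIntegral_nonneg hS
    intro y hy
    exact mul_nonneg hy.1.1.1.le (hf y hy.2 hy.1.1.1)
  | cons Q L =>
    rw [hL] at h1 hc
    refine (M_T2.main hT1 hK ha hab hf hS rfl hint L Q h1 ?_).trans ?_
    · intro A B hAB
      exact hc A B hAB
    · apply setIntegral_mono_set hint
      · filter_upwards [ae_restrict_mem hS] with y hy
        exact mul_nonneg hy.1.1.1.le (hf y hy.2 hy.1.1.1)
      · exact LE.le.eventuallyLE inter_subset_left

end VD
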