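import Pool.Agent.Helper50.VD.St

open MeasureTheory Set Filter Topology
open scoped ENNReal

noncomputable section

namespace VD.M_W3

theorem bd_mono (x0 w : ℕ) {i j : ℕ} (h : i ≤ j) : bd x0 w i ≤ bd x0 w j := by
  have e : ∀ i, bd x0 w i = x0 + w * i / 16 := fun _ => rfl
  rw [e, e]
  gcongr

theorem bd_zero (x0 w : ℕ) : bd x0 w 0 = x0 := by
  have e : ∀ i, bd x0 w i = x0 + w * i / 16 := fun _ => rfl
  rw [e]; simp

theorem bd_last (x0 w : ℕ) : bd x0 w 16 = x0 + w := by
  have e : ∀ i, bd x0 w i = x0 + w * i / 16 := fun _ => rfl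
  rw [e]; simp

/-- the mixed kernel -/
def mx' (kp km : ℝ → ℝ) (t : ℝ) (y : ℝ) : ℝ := if y < t then km y else kp y

theorem mix_int {kp km : ℝ → ℝ} {a b : ℝ} (hp : IntervalIntegrable kp volume a b)
    (hm : IntervalIntegrable km volume a b) (t : ℝ) :
    IntervalIntegrable (mx' kp km t) volume a b := by
  have key : ∀ s : Set ℝ, IntegrableOn kp s → IntegrableOn km s → IntegrableOn (mx' kp km t) s := by
    intro s h1 h2
    have : mx' kp km t = (Iio t).piecewise km kp := by
      ext y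
      by_cases hy : y < t <;> simp [mx', hy]
    unfold IntegrableOn
    rw [this]
    exact Integrable.piecewise measurableSet_Iio (Integrable.integrableOn h2) (Integrable.integrableOn h1)
  exact ⟨key _ hp.1 hm.1, key _ hp.2 hm.2⟩

theorem dp_succ (P : Pts) (s2 x0 w lim k : ℕ) :
    dp P s2 x0 w lim (k + 1) =
      (cP P s2 (bd x0 w (15 - k)) (bd x0 w (16 - k)) + (dp P s2 x0 w lim k).1,
       cond (Nat.ble (bd x0 w (15 - k)) lim)
        (mn (cP P s2 (bd x0 w (15 - k)) (bd x0 w (16 - k)) + (dp P s2 x0 w lim k).1)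
          (mn (cR P s2 (bd x0 w (15 - k)) (bd x0 w (16 - k)) + (dp P s2 x0 w lim k).1)
            (cQ P s2 (bd x0 w (15 - k)) (bd x0 w (16 - k)) + (dp P s2 x0 w lim k).2)))
        (cP P s2 (bd x0 w (15 - k)) (bd x0 w (16 - k)) + (dp P s2 x0 w lim k).1)) := rfl

/-- one step, abstract -/
theorem step {kp km : ℝ → ℝ} {a b c lim cp cq cr sp be : ℕ} (hab : (a : ℝ) ≤ b) (hbc : (b : ℝ) ≤ c)
    (ip : IntervalIntegrable kp volume a c) (im : IntervalIntegrable km volume a c)
    (hP : (cp : ℝ) ≤ ∫ y in (a : ℝ)..b, kp y) (hQ : (cq : ℝ) ≤ ∫ y in (a : ℝ)..b, km y)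
    (hR : ∀ y : ℝ, (a : ℝ) ≤ y → y ≤ b →
      (cr : ℝ) ≤ ((b : ℝ) - a) * kp y ∧ (cr : ℝ) ≤ ((b : ℝ) - a) * km y)
    (ih1 : (sp : ℝ) ≤ ∫ y in (b : ℝ)..c, kp y)
    (ih2 : ∀ t : ℝ, t ≤ lim → (be : ℝ) ≤ ∫ y in (b : ℝ)..c, mx' kp km t y) :
    (((cp + sp : ℕ)) : ℝ) ≤ ∫ y in (a : ℝ)..c, kp y ∧
    ∀ t : ℝ, t ≤ lim → ((cond (Nat.ble a lim) (mn (cp + sp) (mn (cr + sp) (cq + be))) (cp + sp) : ℕ) : ℝ) ≤
      ∫ y in (a : ℝ)..c, mx' kp km t y := by
  have sub : ∀ {f : ℝ → ℝ}, IntervalIntegrable f volume a c →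
      ∀ u v : ℝ, (a : ℝ) ≤ u → u ≤ v → v ≤ c → IntervalIntegrable f volume u v := by
    intro f hf u v h1 h2 h3
    apply hf.mono_set
    rw [uIcc_of_le h2, uIcc_of_le (by linarith)]
    exact Icc_subset_Icc h1 h3
  have spl : ∀ {f : ℝ → ℝ}, IntervalIntegrable f volume a c →
      ∫ y in (a : ℝ)..c, f y = (∫ y in (a : ℝ)..b, f y) + ∫ y in (b : ℝ)..c, f y := by
    intro f hf
    rw [intervalIntegral.integral_add_adjacent_intervals]
    · exact sub hf a b le_rfl hab hbc
    · exact sub hf b c hab hbc le_rfl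
  have h1 : ((cp + sp : ℕ) : ℝ) ≤ ∫ y in (a : ℝ)..c, kp y := by
    rw [spl ip]
    push_cast
    linarith
  refine ⟨h1, ?_⟩
  intro t ht
  have imx := mix_int ip im t
  -- the case where everything is `kp`
  have hall : t ≤ a → ∫ y in (a : ℝ)..c, mx' kp km t y = ∫ y in (a : ℝ)..c, kp y := by
    intro hta
    apply intervalIntegral.integral_congr
    intro y hy
    rw [uIcc_of_le (by linarith)] at hy
    have : ¬ y < t := not_lt.mpr (hta.trans hy.1)
    simp [mx', this]
  by_cases hle : a ≤ lim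
  · have hbl : Nat.ble a lim = true := Nat.ble_eq.mpr hle
    rw [hbl, cond_true, mn_eq, mn_eq]
    rcases le_or_gt t a with hta | hta
    · rw [hall hta]
      refine le_trans ?_ h1
      exact_mod_cast min_le_left _ _
    · rw [spl imx]
      rcases le_or_gt t b with htb | htb
      · -- the end of the row is in the cell
        have hlt : (a : ℝ) < b := lt_of_lt_of_le hta htb
        have hr : ∫ y in (b : ℝ)..c, mx' kp km t y = ∫ y in (b : ℝ)..c, kp y := by
          apply intervalIntegral.integral_congr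
          intro y hy
          rw [uIcc_of_le hbc] at hy
          have : ¬ y < t := not_lt.mpr (htb.trans hy.1)
          simp [mx', this]
        rw [hr]
        have hcell : (cr : ℝ) ≤ ∫ y in (a : ℝ)..b, mx' kp km t y := by
          have hd : (0 : ℝ) < b - a := by linarith
          have hconst : (cr : ℝ) = ∫ _ in (a : ℝ)..b, (cr : ℝ) / (b - a) := by
            rw [intervalIntegral.integral_const, smul_eq_mul]
            field_simp
          rw [hconst]
          apply intervalIntegral.integral_mono_on hab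
          · exact intervalIntegrable_const
          · exact sub imx a b le_rfl hab hbc
          · intro y hy
            rw [div_le_iff₀ hd]
            obtain ⟨g1, g2⟩ := hR y hy.1 hy.2
            unfold mx'
            split_ifs
            · linarith
            · linarith
        have : ((min (cp + sp) (min (cr + sp) (cq + be)) : ℕ) : ℝ) ≤ ((cr + sp : ℕ) : ℝ) := by
          exact_mod_cast (min_le_right _ _).trans (min_le_left _ _)
        refine this.trans ?_
        push_cast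
        linarith
      · -- the cell is inside the row
        have hcell : (cq : ℝ) ≤ ∫ y in (a : ℝ)..b, mx' kp km t y := by
          refine hQ.trans (le_of_eq ?_)
          apply intervalIntegral.integral_congr
          intro y hy
          rw [uIcc_of_le hab] at hy
          have : y < t := lt_of_le_of_lt hy.2 htb
          simp [mx', this]
        have h2 := ih2 t ht
        have : ((min (cp + sp) (min (cr + sp) (cq + be)) : ℕ) : ℝ) ≤ ((cq + be : ℕ) : ℝ) := by
          exact_mod_cast (min_le_right _ _).trans (min_le_right _ _)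
        refine this.trans ?_
        push_cast
        linarith
  · have hbl : Nat.ble a lim = false := by
      cases hb' : Nat.ble a lim
      · rfl
      · exact absurd (Nat.ble_eq.mp hb') hle
    rw [hbl, cond_false]
    have : (lim : ℝ) < a := by exact_mod_cast not_le.mp hle
    rw [hall (by linarith)]
    exact h1

theorem key (P : Pts) (s2 x0 w lim : ℕ) (kp km : ℝ → ℝ)
    (ip : IntervalIntegrable kp volume x0 (x0 + w : ℕ))
    (im : IntervalIntegrable km volume x0 (x0 + w : ℕ))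
    (hP : ∀ i < 16, (cP P s2 (bd x0 w i) (bd x0 w (i + 1)) : ℝ) ≤
      ∫ y in (bd x0 w i : ℝ)..(bd x0 w (i + 1) : ℝ), kp y)
    (hQ : ∀ i < 16, (cQ P s2 (bd x0 w i) (bd x0 w (i + 1)) : ℝ) ≤
      ∫ y in (bd x0 w i : ℝ)..(bd x0 w (i + 1) : ℝ), km y)
    (hR : ∀ i < 16, ∀ y : ℝ, (bd x0 w i : ℝ) ≤ y → y ≤ (bd x0 w (i + 1) : ℝ) →
      (cR P s2 (bd x0 w i) (bd x0 w (i + 1)) : ℝ) ≤ ((bd x0 w (i + 1) : ℝ) - bd x0 w i) * kp y ∧
      (cR P s2 (bd x0 w i) (bd x0 w (i + 1)) : ℝ) ≤ ((bd x0 w (i + 1) : ℝ) - bd x0 w i) * km y)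
    (k : ℕ) : k ≤ 16 →
      ((dp P s2 x0 w lim k).1 : ℝ) ≤ ∫ y in (bd x0 w (16 - k) : ℝ)..(bd x0 w 16 : ℝ), kp y ∧
      ∀ t : ℝ, t ≤ lim → ((dp P s2 x0 w lim k).2 : ℝ) ≤
        ∫ y in (bd x0 w (16 - k) : ℝ)..(bd x0 w 16 : ℝ), mx' kp km t y := by
  induction k with
  | zero =>
    intro _
    have h0 : dp P s2 x0 w lim 0 = (0, 0) := rfl
    rw [h0, Nat.sub_zero]
    constructor
    · rw [intervalIntegral.integral_same]; simp
    · intro t _
      rw [intervalIntegral.integral_same]; simp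
  | succ k ih =>
    intro hk
    obtain ⟨ih1, ih2⟩ := ih (by omega)
    have e1 : 16 - (k + 1) = 15 - k := by omega
    have e2 : 15 - k + 1 = 16 - k := by omega
    have hP' := hP (15 - k) (by omega)
    have hQ' := hQ (15 - k) (by omega)
    have hR' := hR (15 - k) (by omega)
    rw [e2] at hP' hQ' hR'
    rw [e1, dp_succ]
    have hab : ((bd x0 w (15 - k) : ℕ) : ℝ) ≤ (bd x0 w (16 - k) : ℕ) :=
      Nat.cast_le.mpr (bd_mono x0 w (by omega))
    have hbc : ((bd x0 w (16 - k) : ℕ) : ℝ) ≤ (bd x0 w 16 : ℕ) :=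
      Nat.cast_le.mpr (bd_mono x0 w (by omega))
    have hx0 : (x0 : ℝ) ≤ (bd x0 w (15 - k) : ℕ) := by
      have : bd x0 w 0 ≤ bd x0 w (15 - k) := bd_mono x0 w (by omega)
      rw [bd_zero] at this
      exact Nat.cast_le.mpr this
    have sub : ∀ {f : ℝ → ℝ}, IntervalIntegrable f volume x0 (x0 + w : ℕ) →
        IntervalIntegrable f volume (bd x0 w (15 - k) : ℕ) (bd x0 w 16 : ℕ) := by
      intro f hf
      apply hf.mono_set
      rw [uIcc_of_le (hab.trans hbc), uIcc_of_le (by
        rw [← bd_last]; exact hx0.trans (hab.trans hbc)), ← bd_last]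
      exact Icc_subset_Icc hx0 le_rfl
    exact step hab hbc (sub ip) (sub im) hP' hQ' hR' ih1 ih2

end VD.M_W3

namespace VD

open M_W3

/-- dynamic programming lemma (induction on k) -/
theorem mW3 : StW3 := by
  intro P s2 x0 w lim kp km hkp hkm ip im hP hQ hR t ht
  have := (key P s2 x0 w lim kp km ip im hP hQ hR 16 le_rfl).2 t ht
  rw [Nat.sub_self, bd_zero, bd_last] at this
  exact this

end VD
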