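import Pool.Agent.Helper50.VD.St

open MeasureTheory Set Filter Topology
open scoped ENNReal

noncomputable section

namespace VD.M_W5

theorem slice {F : ℝ → ℝ} (hF : IntegrableOn F (Ioi 0)) {s0 s1 V : ℕ} (h01 : s0 < s1) {q : ℝ}
    (hV : ∀ s : ℝ, (s0 : ℝ) / 100 < s → s < (s1 : ℝ) / 100 → s ≠ q →
      (V : ℝ) * s / (Real.pi * 10 ^ 16) ≤ F s) :
    (((s1 * s1 - s0 * s0) * V : ℕ) : ℝ) / (2 * Real.pi * 10 ^ 20) ≤
      ∫ s in ((s0 : ℝ) / 100)..((s1 : ℝ) / 100), F s := by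
  have hpi := Real.pi_pos
  have h01' : (s0 : ℝ) < s1 := by exact_mod_cast h01
  have hle : (s0 : ℝ) / 100 ≤ (s1 : ℝ) / 100 := by linarith
  have h0 : (0 : ℝ) ≤ s0 := Nat.cast_nonneg _
  have e1 : (((s1 * s1 - s0 * s0) * V : ℕ) : ℝ) / (2 * Real.pi * 10 ^ 20) =
      ∫ s in ((s0 : ℝ) / 100)..((s1 : ℝ) / 100), (V : ℝ) * s / (Real.pi * 10 ^ 16) := by
    have : ∀ s : ℝ, (V : ℝ) * s / (Real.pi * 10 ^ 16) = (V : ℝ) / (Real.pi * 10 ^ 16) * s := by
      intro s; ring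
    simp_rw [this]
    rw [intervalIntegral.integral_const_mul, integral_id, Nat.cast_mul,
      Nat.cast_sub (Nat.mul_le_mul h01.le h01.le)]
    push_cast
    field_simp
    ring
  rw [e1, intervalIntegral.integral_of_le hle, intervalIntegral.integral_of_le hle]
  apply setIntegral_mono_ae_restrict
  · apply Continuous.integrableOn_Ioc
    fun_prop
  · exact hF.mono_set fun x hx => by
      have : 0 ≤ (s0 : ℝ) / 100 := by positivity
      exact lt_of_le_of_lt this hx.1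
  · have a1 : ∀ᵐ s : ℝ, s ≠ q := by simp [ae_iff, measure_singleton]
    have a2 : ∀ᵐ s : ℝ, s ≠ (s1 : ℝ) / 100 := by simp [ae_iff, measure_singleton]
    filter_upwards [ae_restrict_mem measurableSet_Ioc, ae_restrict_of_ae a1, ae_restrict_of_ae a2]
      with s hs hs1 hs2
    exact hV s hs.1 (lt_of_le_of_ne hs.2 hs2) hs1

/-- row boundary -/
def hh (j : ℕ) : ℕ := 388700 * j / 80

theorem hh_lt {i j : ℕ} (h : i < j) : hh i < hh j := by
  unfold hh; omega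

theorem hh_le {j : ℕ} (h : j ≤ 80) : hh j ≤ 388700 := by
  unfold hh; omega

theorem rows_succ (p : Pts) (R k : ℕ) :
    rows p R (k + 1) =
      (hh (80 - k) * hh (80 - k) - hh (79 - k) * hh (79 - k)) *
        rowV p (xOut R (hh (79 - k)) Es) (xIn (hh (80 - k)) Es) (hh (79 - k)) (hh (80 - k)) +
        rows p R k := rfl

theorem sum {F : ℝ → ℝ} (hF : IntegrableOn F (Ioi 0)) {P : Pts} {R : ℕ} {q : ℝ}
    (hV : ∀ s0 s1 : ℕ, s0 < s1 → s1 ≤ 388700 → ∀ s : ℝ, (s0 : ℝ) / 100 < s → s < (s1 : ℝ) / 100 →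
      s ≠ q → (rowV P (xOut R s0 Es) (xIn s1 Es) s0 s1 : ℝ) * s / (Real.pi * 10 ^ 16) ≤ F s)
    (k : ℕ) : k ≤ 80 → (rows P R k : ℝ) / (2 * Real.pi * 10 ^ 20) ≤
      ∫ s in ((hh (80 - k) : ℕ) : ℝ) / 100..((hh 80 : ℕ) : ℝ) / 100, F s := by
  induction k with
  | zero =>
    intro _
    have : rows P R 0 = 0 := rfl
    rw [this, Nat.sub_zero, intervalIntegral.integral_same]
    simp
  | succ k ih =>
    intro hk
    have ih' := ih (by omega)
    rw [rows_succ, show 80 - (k + 1) = 79 - k by omega]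
    have hlt : hh (79 - k) < hh (80 - k) := hh_lt (by omega)
    have hst := slice hF hlt (fun s h1 h2 h3 =>
      hV (hh (79 - k)) (hh (80 - k)) hlt (hh_le (by omega)) s h1 h2 h3)
    have hle1 : ((hh (79 - k) : ℕ) : ℝ) / 100 ≤ ((hh (80 - k) : ℕ) : ℝ) / 100 := by
      have : ((hh (79 - k) : ℕ) : ℝ) ≤ ((hh (80 - k) : ℕ) : ℝ) := Nat.cast_le.mpr hlt.le
      linarith
    have hle2 : ((hh (80 - k) : ℕ) : ℝ) / 100 ≤ ((hh 80 : ℕ) : ℝ) / 100 := by
      have : hh (80 - k) ≤ hh 80 := by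
        rcases Nat.eq_zero_or_pos k with h | h
        · rw [h]
        · exact (hh_lt (by omega)).le
      have : ((hh (80 - k) : ℕ) : ℝ) ≤ ((hh 80 : ℕ) : ℝ) := Nat.cast_le.mpr this
      linarith
    have hii : ∀ u v : ℝ, 0 ≤ u → u ≤ v → IntervalIntegrable F volume u v := by
      intro u v hu huv
      rw [intervalIntegrable_iff_integrableOn_Ioc_of_le huv]
      exact hF.mono_set fun x hx => lt_of_le_of_lt hu hx.1
    rw [← intervalIntegral.integral_add_adjacent_intervals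
      (hii _ _ (by positivity) hle1) (hii _ _ (by positivity) hle2), Nat.cast_add, add_div]
    exact add_le_add hst ih'

theorem tail_le {F : ℝ → ℝ} (hF : IntegrableOn F (Ioi 0)) (h0 : ∀ s, 0 ≤ F s) {i j : ℕ}
    (hij : i ≤ j) : ∫ s in (i : ℝ) / 100..(j : ℝ) / 100, F s ≤ ∫ s in Ioi (0 : ℝ), F s := by
  have h1 : (i : ℝ) ≤ j := Nat.cast_le.mpr hij
  have h2 : (0 : ℝ) ≤ i := Nat.cast_nonneg _
  rw [intervalIntegral.integral_of_le (by linarith)]
  apply setIntegral_mono_set hF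
  · filter_upwards with s using h0 s
  · apply LE.le.eventuallyLE
    intro x hx
    have : (0 : ℝ) ≤ (i : ℝ) / 100 := by positivity
    exact lt_of_le_of_lt this hx.1

theorem hh_mono {i j : ℕ} (h : i ≤ j) : hh i ≤ hh j := by
  rcases Nat.eq_or_lt_of_le h with h | h
  · rw [h]
  · exact (hh_lt h).le

theorem fin {T R0 : ℕ} {ρ : ℝ} (hR01 : R0 ≤ 10000) (hR0 : (R0 : ℝ) / 10000 ≤ ρ)
    (h3 : (T : ℝ) / (2 * Real.pi * 10 ^ 20) ≤ 1006 - 994 * ρ)
    (c6 : (10060000 - 994 * R0) * 628320000000000000000 + 1 ≤ T * 10000) : False := by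
  have hpi := Real.pi_pos
  have hpi2 := Real.pi_lt_d4
  have hsub : ((10060000 - 994 * R0 : ℕ) : ℝ) = 10060000 - 994 * R0 := by
    rw [Nat.cast_sub (by omega)]
    push_cast
    ring
  have c7 : ((10060000 : ℝ) - 994 * R0) * 628320000000000000000 + 1 ≤ T * 10000 := by
    rw [← hsub]
    exact_mod_cast c6
  rw [div_le_iff₀ (by positivity)] at h3
  have hR0' : (R0 : ℝ) ≤ 10000 := by exact_mod_cast hR01
  have h4 : 1006 - 994 * ρ ≤ (10060000 - 994 * R0) / 10000 := by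
    linarith
  have h5 : (0 : ℝ) < 10060000 - 994 * R0 := by linarith
  have h6 : (T : ℝ) ≤ (10060000 - 994 * R0) / 10000 * (2 * 3.1416 * 10 ^ 20) := by
    refine h3.trans ?_
    apply mul_le_mul h4 (by nlinarith) (by positivity)
    positivity
  nlinarith

end VD.M_W5

namespace VD

open M_W5

/-- soundness of chkW: sum over 80 rows -/
theorem mW5 (hU1 : StU1) (hU2 : StU2) (hW4 : StW4) : StW5 := by
  intro R1 R0 hchk A ρ p q hC hpq hR0 hR1
  unfold chkW at hchk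
  simp only [Bool.and_eq_true, Nat.ble_eq] at hchk
  obtain ⟨⟨⟨⟨c1, c2⟩, c3⟩, c4⟩, c5⟩ := hchk
  have hRR : R0 ≤ R1 := by
    have : (R0 : ℝ) / 10000 ≤ (R1 : ℝ) / 10000 := hR0.trans hR1
    have : (R0 : ℝ) ≤ R1 := by linarith
    exact_mod_cast this
  have hR01 : R0 ≤ 10000 := hRR.trans c3
  have h1R1 : 1 ≤ R1 := le_trans c4 hRR
  obtain ⟨u1, -, -⟩ := hU1 A ρ p q hC
  obtain ⟨i1, i2, i3⟩ := hU2 A ρ p q hC
  have hV := hW4 R1 h1R1 c3 c1 c2 A ρ p q hC hpq hR1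
  have hs := sum i1 (P := mkPts R1) (R := R1) (q := q.2) hV 80 le_rfl
  have h2 := tail_le i1 i2 (hh_mono (show 80 - 80 ≤ 80 by omega))
  have h3 : (rows (mkPts R1) R1 80 : ℝ) / (2 * Real.pi * 10 ^ 20) ≤ 1006 - 994 * ρ := by
    refine hs.trans (h2.trans ?_)
    rw [← i3]
    exact u1
  generalize rows (mkPts R1) R1 80 = T at h3 c5
  exact fin hR01 hR0 h3 c5

end VD
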