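import Pool.Agent.Helper50.VD.St

open MeasureTheory Set Filter Topology
open scoped ENNReal

noncomputable section

namespace VD.M_X0

theorem exists_sub {μ : Measure (ℝ × ℝ)}
    (hμ : ∀ k : ℕ, ∃ C : ℝ, 0 ≤ C ∧ ∀ s s' : ℝ, s ≤ s' →
      μ (Ioc s s' ×ˢ Icc (-(k : ℝ)) k) ≤ ENNReal.ofReal (C * (s' - s)))
    (E : Set (ℝ × ℝ)) (t : ℝ≥0∞) (hE : MeasurableSet E) (ht : t ≤ μ E) (ht' : t ≠ ∞) :
    ∃ E' ⊆ E, MeasurableSet E' ∧ μ E' = t := by
  rcases eq_or_lt_of_le ht with h | h
  · exact ⟨E, Subset.rfl, hE, h.symm⟩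
  -- exhaust
  set B : ℕ → Set (ℝ × ℝ) := fun k => Ioc (-(k : ℝ)) k ×ˢ Icc (-(k : ℝ)) k with hB
  have hBm : ∀ k, MeasurableSet (B k) := fun k => measurableSet_Ioc.prod measurableSet_Icc
  have hmono : Monotone fun k => E ∩ B k := by
    intro i j hij z hz
    have hc : (i : ℝ) ≤ j := by exact_mod_cast hij
    refine ⟨hz.1, ?_⟩
    have h2 := hz.2
    simp only [hB, mem_prod, mem_Ioc, mem_Icc] at h2 ⊢
    exact ⟨⟨by linarith [h2.1.1], by linarith [h2.1.2]⟩, ⟨by linarith [h2.2.1], by linarith [h2.2.2]⟩⟩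
  have hU : ⋃ k, (E ∩ B k) = E := by
    rw [← inter_iUnion]
    apply inter_eq_left.mpr
    intro z _
    obtain ⟨k, hk⟩ := exists_nat_gt (|z.1| + |z.2|)
    refine mem_iUnion.mpr ⟨k, ?_⟩
    simp only [hB, mem_prod, mem_Ioc, mem_Icc]
    have h1 := abs_le.mp (le_refl |z.1|)
    have h2 := abs_le.mp (le_refl |z.2|)
    have h3 := abs_nonneg z.1
    have h4 := abs_nonneg z.2
    exact ⟨⟨by linarith, by linarith⟩, ⟨by linarith, by linarith⟩⟩
  have hlim : Tendsto (fun k => μ (E ∩ B k)) atTop (𝓝 (μ E)) := by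
    have := tendsto_measure_iUnion_atTop (μ := μ) hmono
    rwa [hU] at this
  obtain ⟨k, hk⟩ := (hlim.eventually (lt_mem_nhds h)).exists
  obtain ⟨C, hC0, hC⟩ := hμ k
  set F := E ∩ B k with hF
  have hFm : MeasurableSet F := hE.inter (hBm k)
  have hfin : μ F < ∞ := by
    refine lt_of_le_of_lt (measure_mono inter_subset_right) ?_
    refine lt_of_le_of_lt (hC (-(k : ℝ)) k ?_) ENNReal.ofReal_lt_top
    have : (0 : ℝ) ≤ k := Nat.cast_nonneg k
    linarith
  set L : ℝ → Set (ℝ × ℝ) := fun s => F ∩ {z | z.1 ≤ s} with hL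
  have hLm : ∀ s, MeasurableSet (L s) := fun s =>
    hFm.inter (measurableSet_le measurable_fst measurable_const)
  have hLfin : ∀ s, μ (L s) ≠ ∞ := fun s => (lt_of_le_of_lt (measure_mono inter_subset_left) hfin).ne
  set f : ℝ → ℝ := fun s => (μ (L s)).toReal with hf
  have hmon : ∀ s s', s ≤ s' → f s ≤ f s' := by
    intro s s' hs
    apply ENNReal.toReal_mono (hLfin s')
    apply measure_mono
    intro z hz
    exact ⟨hz.1, le_trans hz.2 hs⟩
  have hlip : ∀ s s', s ≤ s' → f s' ≤ f s + C * (s' - s) := by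
    intro s s' hs
    have h1 : μ (L s') ≤ μ (L s) + ENNReal.ofReal (C * (s' - s)) := by
      calc μ (L s') ≤ μ (L s ∪ (Ioc s s' ×ˢ Icc (-(k : ℝ)) k)) := by
            apply measure_mono
            intro z hz
            by_cases hzs : z.1 ≤ s
            · left; exact ⟨hz.1, hzs⟩
            · right
              exact ⟨⟨not_le.mp hzs, hz.2⟩, hz.1.2.2⟩
        _ ≤ μ (L s) + μ (Ioc s s' ×ˢ Icc (-(k : ℝ)) k) := measure_union_le _ _
        _ ≤ _ := by gcongr; exact hC s s' hs
    have h2 := ENNReal.toReal_mono (ENNReal.add_ne_top.mpr ⟨hLfin s, ENNReal.ofReal_ne_top⟩) h1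
    rw [ENNReal.toReal_add (hLfin s) ENNReal.ofReal_ne_top,
      ENNReal.toReal_ofReal (mul_nonneg hC0 (by linarith))] at h2
    exact h2
  have hcont : Continuous f := by
    apply LipschitzWith.continuous (K := Real.toNNReal C)
    apply LipschitzWith.of_dist_le_mul
    intro x y
    rw [Real.coe_toNNReal C hC0, Real.dist_eq, Real.dist_eq]
    rcases le_total x y with hxy | hxy
    · have h1 := hmon x y hxy
      have h2 := hlip x y hxy
      rw [abs_sub_comm, abs_sub_comm x y, abs_of_nonneg (by linarith), abs_of_nonneg (by linarith)]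
      linarith
    · have h1 := hmon y x hxy
      have h2 := hlip y x hxy
      rw [abs_of_nonneg (by linarith), abs_of_nonneg (by linarith)]
      linarith
  have hk0 : (0 : ℝ) ≤ k := Nat.cast_nonneg k
  have h0 : f (-(k : ℝ)) = 0 := by
    have : L (-(k : ℝ)) = ∅ := by
      ext z
      simp only [hL, hF, hB, mem_inter_iff, mem_prod, mem_Ioc, mem_ofPred_eq, mem_empty_iff_false,
        iff_false, not_and, not_le]
      intro h
      exact h.2.1.1
    simp [hf, this]
  have h1 : f k = (μ F).toReal := by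
    have : L k = F := by
      ext z
      simp only [hL, mem_inter_iff, mem_ofPred_eq, and_iff_left_iff_imp]
      intro h
      exact h.2.1.2
    simp only [hf, this]
  have hmem : t.toReal ∈ Icc (f (-(k : ℝ))) (f k) := by
    rw [h0, h1]
    exact ⟨ENNReal.toReal_nonneg, ENNReal.toReal_mono hfin.ne hk.le⟩
  obtain ⟨s, -, hs⟩ := intermediate_value_Icc (by linarith) hcont.continuousOn hmem
  refine ⟨L s, fun z hz => hz.1.1, hLm s, ?_⟩
  exact (ENNReal.toReal_eq_toReal_iff' (hLfin s) ht').mp hs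

theorem vol_strip (k : ℕ) (s s' : ℝ) :
    volume (Ioc s s' ×ˢ Icc (-(k : ℝ)) k) = ENNReal.ofReal ((2 * k) * (s' - s)) := by
  rw [Measure.volume_eq_prod, Measure.prod_prod, Real.volume_Icc, Real.volume_Ioc, mul_comm,
    ← ENNReal.ofReal_mul (by have : (0 : ℝ) ≤ k := Nat.cast_nonneg k; linarith)]
  congr 1; ring

end VD.M_X0

namespace VD

/-- subsets with prescribed measure (volume, nu) -/
theorem mX0 : StX0 := by
  constructor
  · intro E t hE ht ht'
    apply M_X0.exists_sub _ E t hE ht ht'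
    intro k
    refine ⟨2 * k, by positivity, ?_⟩
    intro s s' _
    exact (M_X0.vol_strip k s s').le
  · intro E t hE ht ht'
    apply M_X0.exists_sub _ E t hE ht ht'
    intro k
    refine ⟨k * (2 * k), by positivity, ?_⟩
    intro s s' _
    have hm : MeasurableSet (Ioc s s' ×ˢ Icc (-(k : ℝ)) k) := measurableSet_Ioc.prod measurableSet_Icc
    rw [nu_apply hm]
    calc ∫⁻ y in Ioc s s' ×ˢ Icc (-(k : ℝ)) k, ENNReal.ofReal y.2
        ≤ ∫⁻ y in Ioc s s' ×ˢ Icc (-(k : ℝ)) k, ENNReal.ofReal k := by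
          apply setLIntegral_mono' hm
          intro y hy
          exact ENNReal.ofReal_le_ofReal hy.2.2
      _ = ENNReal.ofReal k * volume (Ioc s s' ×ˢ Icc (-(k : ℝ)) k) := by rw [setLIntegral_const]
      _ = ENNReal.ofReal (k * (2 * k) * (s' - s)) := by
          rw [M_X0.vol_strip, ← ENNReal.ofReal_mul (Nat.cast_nonneg k)]
          congr 1; ring
      _ ≤ _ := le_rfl

end VD
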