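import Pool.Agent.Helper50.VD.St

open MeasureTheory Set Filter Topology
open scoped ENNReal

noncomputable section

namespace VD.M_X4

theorem mp_rfl (l : ℝ) : MeasurePreserving (rfl' l) (volume : Measure (ℝ × ℝ)) volume :=
  (Measure.measurePreserving_sub_left (volume : Measure ℝ) (2 * l)).prod
    (MeasurePreserving.id (volume : Measure ℝ))

theorem rfl_rfl (l : ℝ) (z : ℝ × ℝ) : rfl' l (rfl' l z) = z := by
  simp [rfl']

theorem meas_rfl (l : ℝ) : Measurable (rfl' l) := (mp_rfl l).measurable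

theorem emb_rfl (l : ℝ) : MeasurableEmbedding (rfl' l) := by
  let e : (ℝ × ℝ) ≃ᵐ (ℝ × ℝ) :=
    { toFun := rfl' l
      invFun := rfl' l
      left_inv := rfl_rfl l
      right_inv := rfl_rfl l
      measurable_toFun := meas_rfl l
      measurable_invFun := meas_rfl l }
  exact e.measurableEmbedding

/-- polarisation keeps `D` -/
theorem core (hX2 : StX2) (hX3 : StX3) {D A : Set (ℝ × ℝ)} {c m : ℝ≥0∞}
    (hD : D = Om ∨ ∃ n : ℝ, D = Box n) (hA : IsMx D c m A) (hb : ∃ R, A ⊆ Box R)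
    (hv : 0 < volume A) (h0 : 0 ≤ ∫ z in A, z.1) :
    ∃ τ : ℝ, (∀ᵐ z, z ∈ A ↔ rfl' τ z ∈ A) ∧
      (∀ z : ℝ × ℝ, 0 ≤ z.2 → phi A (rfl' τ z) = phi A z) ∧
      (∀ x x' s : ℝ, 0 ≤ s → τ ≤ x → x < x' → phi A (x', s) < phi A (x, s)) := by
  obtain ⟨R, hR⟩ := hb
  have hOm : A ⊆ Om := hR.trans (Box_subset_Om R)
  have key : ∀ l : ℝ, 0 ≤ l → volume (Pl A l) = 0 ∨ volume (Ql A l) = 0 := by
    intro l hl
    by_contra hcon
    rw [not_or] at hcon
    obtain ⟨hP, hQ⟩ := hcon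
    obtain ⟨g1, g2, g3, g4⟩ := hX2 A l hA.1.1 hOm (vol_lt_top hR) (nu_lt_top hR)
      (pos_iff_ne_zero.mpr hP) (pos_iff_ne_zero.mpr hQ)
    have hcls : Cls D c m ((A \ (rfl' l ⁻¹' Ql A l)) ∪ Ql A l) := by
      refine ⟨g1, ?_, by rw [g2]; exact hA.1.2.2.1, by rw [g3]; exact hA.1.2.2.2⟩
      apply union_subset
      · exact sdiff_subset.trans hA.1.2.1
      · intro z hz
        have hz' := hA.1.2.1 hz.2.2
        rcases hD with hD | ⟨n, hD⟩
        · rw [hD] at hz' ⊢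
          exact hz'
        · rw [hD] at hz' ⊢
          have z1 : z.1 < l := hz.1
          obtain ⟨k1, k2, k3⟩ := hz'
          simp only [rfl'] at k1 k2 k3
          refine ⟨?_, k2, k3⟩
          rw [abs_le] at k1 ⊢
          constructor <;> linarith [k1.1, k1.2]
    exact absurd (hA.2 _ hcls) (not_le.mpr g4)
  obtain ⟨τ, -, h1, h2, h3⟩ := hX3 A hA.1.1 hOm ⟨R, hR⟩ hv h0 key
  exact ⟨τ, h1, h2, h3⟩

end VD.M_X4

namespace VD

open M_X4

/-- maximisers are symmetric -/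
theorem mX4 (hK5 : StK5) (hX2 : StX2) (hX3 : StX3) : StX4 := by
  intro D A c m hD _ _ hA hb hv
  rcases le_or_gt 0 (∫ z in A, z.1) with h0 | h0
  · exact core hX2 hX3 hD hA hb hv h0
  · -- reflect
    obtain ⟨R, hR⟩ := hb
    have hsubD : ∀ C : Set (ℝ × ℝ), C ⊆ D → rfl' 0 ⁻¹' C ⊆ D := by
      intro C hC z hz
      have hz' := hC hz
      rcases hD with hD | ⟨n, hD⟩
      · rw [hD] at hz' ⊢
        exact hz'
      · rw [hD] at hz' ⊢
        obtain ⟨k1, k2, k3⟩ := hz'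
        simp only [rfl'] at k1 k2 k3
        refine ⟨?_, k2, k3⟩
        rw [abs_le] at k1 ⊢
        constructor <;> linarith [k1.1, k1.2]
    have hDOm : D ⊆ Om := by
      rcases hD with hD | ⟨n, hD⟩
      · rw [hD]
      · rw [hD]; exact Box_subset_Om n
    have hA0 : IsMx D c m (rfl' 0 ⁻¹' A) := by
      obtain ⟨k1, k2, k3, k4⟩ := hK5.2.2 A 0 hA.1.1 (hA.1.2.1.trans hDOm)
      refine ⟨⟨meas_rfl 0 hA.1.1, hsubD A hA.1.2.1, by rw [k2]; exact hA.1.2.2.1,
        by rw [k3]; exact hA.1.2.2.2⟩, ?_⟩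
      intro A' hA'
      rw [k4]
      exact hA.2 A' hA'
    obtain ⟨kA, -, kv, -⟩ := hK5.2.2 A 0 hA.1.1 (hA.1.2.1.trans hDOm)
    have hint : ∫ z in rfl' 0 ⁻¹' A, z.1 = - ∫ z in A, z.1 := by
      have := (mp_rfl 0).setIntegral_preimage_emb (emb_rfl 0) (fun z : ℝ × ℝ => -z.1) A
      have e : (fun z : ℝ × ℝ => -(rfl' 0 z).1) = fun z => z.1 := by
        ext z; simp [rfl']
      rw [← integral_neg, ← this]
      exact congrArg (fun F : ℝ × ℝ → ℝ => ∫ z in rfl' 0 ⁻¹' A, F z) e.symm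
    obtain ⟨τ, h1, h2, h3⟩ := core hX2 hX3 hD hA0 ⟨R, by
      intro z hz
      obtain ⟨k1, k2, k3⟩ := hR hz
      simp only [rfl'] at k1 k2 k3
      refine ⟨?_, k2, k3⟩
      rw [abs_le] at k1 ⊢
      constructor <;> linarith [k1.1, k1.2]⟩ (by rw [kv]; exact hv) (by rw [hint]; linarith)
    have e1 : ∀ z : ℝ × ℝ, rfl' 0 (rfl' τ (rfl' 0 z)) = rfl' (-τ) z := by
      intro z
      simp only [rfl']
      ext <;> simp
      ring
    refine ⟨-τ, ?_, ?_, ?_⟩
    · have := (mp_rfl 0).quasiMeasurePreserving.ae h1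
      filter_upwards [this] with z hz
      simp only [mem_preimage] at hz
      rw [rfl_rfl, e1] at hz
      exact hz
    · intro z hz
      have := h2 (rfl' 0 z) hz
      rw [kA, kA, rfl_rfl, e1] at this
      exact this
    · intro x x' s hs hx hxx'
      have := h3 (2 * τ + x) (2 * τ + x') s hs (by linarith) (by linarith)
      have r : ∀ x : ℝ, phi A (x, s) = phi (rfl' 0 ⁻¹' A) (2 * τ + x, s) := by
        intro x
        have := h2 (-x, s) hs
        have e2 : rfl' τ (-x, s) = (2 * τ + x, s) := by simp [rfl']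
        rw [e2] at this
        rw [this, kA]
        simp [rfl']
      rw [r x, r x']
      exact this

end VD
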